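import Pool.Agent.H680_BP.Base

namespace Pool.Agent.Results.MP_ab344f_co.OneSided

open Finset H680_BP

/-- Every number `r` of colours: an optimal solution one side of which uses only sets with at most
`t` colours (when `t ^ 2 ≤ r ≤ t (t + 1)`), or only sets with more than `t` colours (when
`t (t + 1) ≤ r ≤ (t + 1) ^ 2`), has the property asked for in Q1. -/
theorem result (r t : ℕ) (ht : 1 ≤ t) (a b : Finset (Fin r) → ℝ) (h : Optimal a b)
    (hab : (t * t ≤ r ∧ r ≤ t * (t + 1) ∧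
        ((∀ R, 0 < a R → R.card ≤ t) ∨ (∀ R, 0 < b R → R.card ≤ t))) ∨
      (t * (t + 1) ≤ r ∧ r ≤ (t + 1) * (t + 1) ∧
        ((∀ R, 0 < a R → t < R.card) ∨ (∀ R, 0 < b R → t < R.card)))) :
    ¬ ∃ R₁ R₂ : Finset (Fin r), 2 ≤ (R₁ ∩ R₂).card ∧ 0 < a R₁ ∧ 0 < b R₂ := by
  rcases hab with ⟨h1, h2, ha | hb⟩ | ⟨h1, h2, hc⟩
  · exact (low_b t ht h1 h2 h.symm (Or.inr ha)).symm
  · exact low_b t ht h1 h2 h (Or.inr hb)
  · rcases h2.eq_or_lt with h3 | h3
    · exact square (t + 1) (by omega) h3 h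
    · rcases hc with ha | hb
      · exact (high_b t ht h1 h3 h.symm fun R hR => ha R hR).symm
      · exact high_b t ht h1 h3 h fun R hR => hb R hR

end Pool.Agent.Results.MP_ab344f_co.OneSided
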