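import Pool.Agent.H680_BP.Base

namespace Pool.Agent.Results.MP_ab344f_co.OverlapMass

open Finset H680_BP

/-- For every number `r` of colours and every optimal solution, the pairs of sets which share two
or more colours have total mass at most `1 / r`. -/
theorem result (r : ℕ) (hr : 1 ≤ r) (a b : Finset (Fin r) → ℝ) (h : Optimal a b) :
    ∑ R₁, ∑ R₂, (if 2 ≤ (R₁ ∩ R₂).card then a R₁ * b R₂ else 0) ≤ 1 / (r : ℝ) :=
  mass_le hr h

end Pool.Agent.Results.MP_ab344f_co.OverlapMass
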