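import Pool.Agent.H680_BP.Base

namespace Pool.Agent.Results.MP_ab344f_co.PronicValue

open Finset H680_BP

/-- The optimal value of the colouring problem on `t (t + 1)` colours is `1 / t + 1 / (t + 1)`, and
it is attained. -/
theorem result (t : ℕ) (ht : 1 ≤ t) :
    ∃ a b : Finset (Fin (t * (t + 1))) → ℝ, Optimal a b ∧
      m a b = 1 / (t : ℝ) + 1 / (t + 1) :=
  exists_optimal_pronic t ht

end Pool.Agent.Results.MP_ab344f_co.PronicValue
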