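import Pool.Agent.H680_BP.Base

namespace Pool.Agent.Results.MP_ab344f_co.QuarterSquares

open Finset H680_BP

/-- Q1 holds when the number of colours is `3` or a quarter square `⌊n ^ 2 / 4⌋`, `2 ≤ n`, that is,
a square or a product of two consecutive integers. -/
theorem result (r : ℕ) (hr : r = 3 ∨ ∃ n : ℕ, 2 ≤ n ∧ r = n ^ 2 / 4)
    (a b : Finset (Fin r) → ℝ) (h : Optimal a b) :
    ¬ ∃ R₁ R₂ : Finset (Fin r), 2 ≤ (R₁ ∩ R₂).card ∧ 0 < a R₁ ∧ 0 < b R₂ := by
  rcases hr with hr | ⟨n, hn, hr⟩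
  · subst hr
    exact three h
  · rcases Nat.even_or_odd' n with ⟨t, ht | ht⟩
    · have e : r = t * t := by
        rw [hr, ht, show (2 * t) ^ 2 = 4 * (t * t) by ring, Nat.mul_div_cancel_left _ (by norm_num)]
      exact square t (by omega) e h
    · have e : r = t * (t + 1) := by
        rw [hr, ht, show (2 * t + 1) ^ 2 = 1 + 4 * (t * (t + 1)) by ring,
          Nat.add_mul_div_left _ _ (by norm_num)]
        norm_num
      exact low_b t (by omega) (by rw [e]; exact Nat.mul_le_mul_left t (by omega)) e.le h (Or.inl e)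

end Pool.Agent.Results.MP_ab344f_co.QuarterSquares
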